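import Pool.Agent.Helper26.UM.Step

set_option autoImplicit false

namespace Pool.Agent.Helper26.UM

open Cardinal Set Pool.Agent.Helper63.INV

universe u v w

/-- small sets are bounded -/
theorem bounded (X : Type u) (hreg : (#X).IsRegular) :
    ∃ J : X → Set X, (∀ b, #(J b) < #X) ∧ ∀ Z : Set X, #Z < #X → ∃ b, Z ⊆ J b := by
  classical
  obtain ⟨r, wo, hr⟩ := Cardinal.exists_ord_eq X
  have hX : ℵ₀ ≤ #X := hreg.aleph0_le
  have hini : ∀ b : X, #({x | r x b} : Set X) < #X := fun b => card_typein_lt b hr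
  refine ⟨fun b => {x | r x b}, hini, ?_⟩
  intro Z hZ
  by_contra hcon
  push Not at hcon
  have h1 : (⋃ z ∈ Z, ({x | r x z} ∪ {z} : Set X)) = Set.univ := by
    ext b
    refine ⟨fun _ => mem_univ _, fun _ => ?_⟩
    obtain ⟨z, hz, hzb⟩ := Set.not_subset.1 (hcon b)
    simp only [mem_iUnion]
    refine ⟨z, hz, ?_⟩
    rcases trichotomous_of r b z with h | h | h
    · exact Or.inl h
    · exact Or.inr h
    · exact (hzb h).elim
  have h2 : #(⋃ z ∈ Z, ({x | r x z} ∪ {z} : Set X) : Set X) < #X := by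
    rw [Cardinal.card_biUnion_lt_iff_forall_of_isRegular hreg hZ]
    intro z _
    apply lt_of_le_of_lt (mk_union_le _ _)
    apply add_lt_of_lt hX (hini z)
    rw [mk_singleton]
    exact lt_of_lt_of_le one_lt_aleph0 hX
  rw [h1, mk_univ] at h2
  exact lt_irrefl _ h2

/-- the points moved into a small set form a small set -/
theorem moved {G : Type v} [Group G] {X : Type u} [MulAction G X] (hX : ℵ₀ ≤ #X)
    (Z : Set X) (hZ : #Z < #X) (S : List G) : #({x : X | ∃ t ∈ S, t • x ∈ Z} : Set X) < #X := by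
  classical
  have h := card_bad_lt hX Z hZ S.toFinset
  have h2 : ({x : X | ∃ t ∈ S, t • x ∈ Z} : Set X) = {x : X | ∃ t ∈ S.toFinset, t • x ∈ Z} := by
    ext x
    simp only [mem_setOf_eq, List.mem_toFinset]
  rw [h2]
  exact h

theorem st_BETA (hS : ST_STEP.{u}) : ST_BETA.{u, v} := by
  intro G _ X _ hreg L n
  have hX : ℵ₀ ≤ #X := hreg.aleph0_le
  have : Infinite X := infinite_iff.2 hX
  obtain ⟨J, hJ1, hJ2⟩ := bounded X hreg
  induction n with
  | zero =>
    intro U hU SA SB tA tB h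
    refine ⟨SA, SB, tA, tB, U, subset_rfl, subset_rfl, h, hU, ?_⟩
    intro g _ k _ x hx y hy
    have : y = x := List.mem_singleton.1 hy
    rw [this]
    exact hx
  | succ n ih =>
    intro U hU SA SB tA tB h
    choose bd hbd using fun g : X → Bool => hJ2 _ (moved hX U hU (L g))
    obtain ⟨a, b, uA, uB, h1⟩ := hS X SA SB tA tB h bd bd
    have hU1 : #((U ∪ J a ∪ J b : Set X)) < #X := by
      apply lt_of_le_of_lt (mk_union_le _ _)
      apply add_lt_of_lt hX _ (hJ1 b)
      apply lt_of_le_of_lt (mk_union_le _ _)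
      exact add_lt_of_lt hX hU (hJ1 a)
    obtain ⟨SA', SB', tA', tB', V, k1, k2, k3, k4, k5⟩ := ih (U ∪ J a ∪ J b) hU1 _ _ _ _ h1
    refine ⟨SA', SB', tA', tB', V, fun g hg => (k1 hg).1, fun g hg => (k2 hg).1, k3, k4, ?_⟩
    intro g hg k hk x hx y hy
    have hb := k5 g hg k hk x hx
    have hy' : y ∈ pts (L g) (L k) x n ++ (fl (L g) (pts (L g) (L k) x n) ++
      fl (L k) (pts (L g) (L k) x n)) := hy
    rcases List.mem_append.1 hy' with h2 | h2
    · intro hyU
      exact hb y h2 (Or.inl (Or.inl hyU))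
    · rcases List.mem_append.1 h2 with h3 | h3
      · intro hyU
        obtain ⟨z, hz, h4⟩ := List.mem_flatMap.1 h3
        obtain ⟨t, ht, h5⟩ := List.mem_map.1 h4
        apply hb z hz
        refine Or.inl (Or.inr ?_)
        have h6 : z ∈ J (bd g) := hbd g ⟨t, ht, by rw [h5]; exact hyU⟩
        rw [(k1 hg).2] at h6
        exact h6
      · intro hyU
        obtain ⟨z, hz, h4⟩ := List.mem_flatMap.1 h3
        obtain ⟨t, ht, h5⟩ := List.mem_map.1 h4
        apply hb z hz
        refine Or.inr ?_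
        have h6 : z ∈ J (bd k) := hbd k ⟨t, ht, by rw [h5]; exact hyU⟩
        rw [(k2 hk).2] at h6
        exact h6

end Pool.Agent.Helper26.UM
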