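import Pool.Agent.Helper26.UM.Main

set_option autoImplicit false

namespace Pool.Agent.Helper26.UM

open Cardinal Set Pool.Agent.Helper63.INV

universe u v w

/-- many means give `2 ^ (2 ^ #X)` means -/
theorem count (hROS : ST_ROS.{u}) (hUC : ST_UCARD.{u}) (hUL : ST_ULIM.{u, v})
    (hUP : ST_UPPER.{u}) (G : Type v) [Group G] (X : Type u) [MulAction G X]
    (hX : ℵ₀ ≤ #X) (h : Many G X) :
    #{M : Set X → ℝ | IsIM G M} = (2 : Cardinal.{u}) ^ ((2 : Cardinal.{u}) ^ #X) := by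
  have : Infinite X := infinite_iff.2 hX
  obtain ⟨A, m, h1, h2, h3⟩ := h
  obtain ⟨f, hf, hf2⟩ := hROS X A m (1 / 12 / 2) (by norm_num) h1 (fun x B => (h2 x).1 B)
    (fun x B C hBC => (h2 x).2.2.1 B C hBC)
  obtain ⟨F, hF1, hF2⟩ := hUL G X (fun x => A (f x)) (fun x => m (f x)) (1 / 12) (by norm_num)
    (fun x => h2 (f x)) (fun x => h3 (f x)) hf2
  apply le_antisymm
  · exact (mk_set_le _).trans (hUP X)
  · apply (hUC X).trans
    apply mk_le_of_injective (f := fun U => (⟨F U, hF2 U⟩ : {M : Set X → ℝ | IsIM G M}))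
    intro U V hUV
    exact hF1 (congrArg Subtype.val hUV)

/-- the number of invariant means -/
theorem final (hROS : ST_ROS.{u}) (hUC : ST_UCARD.{u}) (hUL : ST_ULIM.{u, v})
    (hUP : ST_UPPER.{u}) (hUU : ST_UU.{u, v}) (hSB : ST_SB.{u, v})
    {G : Type v} [Group G] {X : Type u} [MulAction G X]
    (hX : (Cardinal.mk X).IsRegular) {I : Type w}
    (hI : Cardinal.lift.{u} (Cardinal.mk I) ≤ Cardinal.lift.{w} (Cardinal.mk X))
    (C : I → Set (Finset G)) (hC : ∀ E : Finset G, ∃ i, E ∈ C i)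
    (hU : ∀ (i j : I) (δ : ℝ), 0 < δ → ∃ N : ℕ, ∀ E ∈ C i, ∀ F ∈ C j,
      ∃ T : Finset G, T.Nonempty ∧ T.card ≤ N ∧
        ∀ g : G, (g ∈ E ∨ g ∈ F) → ({t : G | t ∈ T ∧ g * t ∉ T}.ncard : ℝ) ≤ δ * T.card) :
    Cardinal.mk {μ : Set X → ℝ | (∀ A : Set X, 0 ≤ μ A ∧ μ A ≤ 1) ∧
        μ Set.univ = 1 ∧
        (∀ A B : Set X, Disjoint A B → μ (A ∪ B) = μ A + μ B) ∧
        (∀ (g : G) (A : Set X), μ ((fun x : X => g • x) ⁻¹' A) = μ A)} =
      2 ^ ((2 : Cardinal.{u}) ^ Cardinal.mk X) := by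
  obtain ⟨e⟩ := Cardinal.lift_mk_le'.1 hI
  have h := st_MAIN.{u, v, w} hUU hSB st_STEP (st_BETA st_STEP) G X hX I e e.injective C hC (by
    intro i j δ hδ
    obtain ⟨N, hN⟩ := hU i j δ hδ
    refine ⟨N, fun E hE F hF => ?_⟩
    obtain ⟨T, h1, h2, h3⟩ := hN E hE F hF
    refine ⟨T, h1, h2, fun g hg => ?_⟩
    have h4 := h3 g hg
    have h5 : bd g T = {t : G | t ∈ T ∧ g * t ∉ T}.ncard := by
      classical
      unfold bd
      rw [cnt_eq, ← Set.ncard_coe_finset, Finset.coe_filter]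
    rw [h5]
    exact h4)
  exact count hROS hUC hUL hUP G X hX.aleph0_le h

end Pool.Agent.Helper26.UM
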