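import Pool.Agent.Helper26.UM.Beta

set_option autoImplicit false

namespace Pool.Agent.Helper26.UM

open Cardinal Set Pool.Agent.Helper63.INV

universe u v w

theorem st_MAIN (hUU : ST_UU.{u, v}) (hSB : ST_SB.{u, v}) (hST : ST_STEP.{u})
    (hBE : ST_BETA.{u, v}) : ST_MAIN.{u, v, w} := by
  classical
  intro G _ X _ hreg I e he C hC hU
  by_contra hno
  have hX : ℵ₀ ≤ #X := hreg.aleph0_le
  have hinf : Infinite X := infinite_iff.2 hX
  have hF : ∀ (E : Finset G) (δ : ℝ), 0 < δ → ∃ T : Finset G, T.Nonempty ∧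
      ∀ g ∈ E, (bd g T : ℝ) ≤ δ * T.card := by
    intro E δ hδ
    obtain ⟨a, ha⟩ := hC E
    obtain ⟨N, hN⟩ := hU a a δ hδ
    obtain ⟨T, h1, _, h3⟩ := hN E ha E ha
    exact ⟨T, h1, fun g hg => h3 g (Or.inl hg)⟩
  obtain ⟨U, hU1, hU2⟩ := hUU G X hreg hno
  let Good : Set (X → Bool) := {g : X → Bool | ∀ M : Set X → ℝ, IsIM G M →
    M ({x | g x = true} \ U) ≤ 1 / 3}
  have hGood : ∀ s : Set (X × Bool), Big Good s := hSB G X hreg hno U hU2
  -- averaging sets
  have havg : ∀ g ∈ Good, ∃ E : Finset G, E.Nonempty ∧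
      ∀ x : X, 8 * cnt E (fun t => t • x ∈ ({x | g x = true} \ U : Set X)) ≤ 3 * E.card := by
    intro g hg
    by_contra h
    push Not at h
    have h' : ∀ E : Finset G, ∃ x : X, E.Nonempty →
        3 * E.card < 8 * cnt E (fun t => t • x ∈ ({x | g x = true} \ U : Set X)) := by
      intro E
      by_cases hE : E.Nonempty
      · obtain ⟨x, hx⟩ := h E hE
        exact ⟨x, fun _ => hx⟩
      · exact ⟨Classical.arbitrary X, fun h => (hE h).elim⟩
    choose x hx using h'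
    obtain ⟨M, hM, hM1, _⟩ := limit_mean hF x
    have h1 : 3 / 8 ≤ M ({x | g x = true} \ U) := by
      apply hM1
      intro T hT
      have h2 := hx T hT
      have h3 : (3 : ℝ) * T.card < 8 * cnt T (fun t => t • x T ∈
        ({x | g x = true} \ U : Set X)) := by exact_mod_cast h2
      linarith
    have h4 := hg M hM
    linarith
  -- the chosen averaging sets and their classes
  have hch : ∀ g : X → Bool, ∃ (E : Finset G) (a : I), E ∈ C a ∧ (g ∈ Good →
      E.Nonempty ∧ ∀ x : X, 8 * cnt E (fun t => t • x ∈ ({x | g x = true} \ U : Set X)) ≤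
        3 * E.card) := by
    intro g
    by_cases hg : g ∈ Good
    · obtain ⟨E, h1, h2⟩ := havg _ hg
      obtain ⟨a, ha⟩ := hC E
      exact ⟨E, a, ha, fun _ => ⟨h1, h2⟩⟩
    · obtain ⟨a, ha⟩ := hC ∅
      exact ⟨∅, a, ha, fun h => (hg h).elim⟩
  choose FF cls hFF hFF' using hch
  have hemp : Cd (∅ : Set (X × Bool)) := by
    refine ⟨fun x v w h => (Set.notMem_empty _ h).elim, ?_⟩
    rw [mk_eq_zero]
    exact lt_of_lt_of_le aleph0_pos hX
  have hst0 : St Good Good (∅ : Set (X × Bool)) ∅ := by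
    refine ⟨hemp, hemp, rfl, ?_, hGood _, hGood _⟩
    rintro y ⟨v, hv⟩
    exact (Set.notMem_empty _ hv).elim
  obtain ⟨cA, cB, tA, tB, hst1⟩ := hST X Good Good ∅ ∅ hst0 (fun g => e (cls g))
    (fun g => e (cls g))
  obtain ⟨gA, hgA, _⟩ := hst1.bA.nonempty hst1.cA
  obtain ⟨gB, hgB, _⟩ := hst1.bB.nonempty hst1.cB
  obtain ⟨N, hN⟩ := hU (cls gA) (cls gB) (1 / 16) (by norm_num)
  let L : (X → Bool) → List G := fun g => (FF g).toList ++ (FF g).toList.map (fun h => h⁻¹)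
  obtain ⟨SA0, SB0, tA0, tB0, V, q1, q2, hst2, q4, q5⟩ := hBE G X hreg L N U hU1 _ _ _ _ hst1
  obtain ⟨x0, hx0⟩ : ∃ x0 : X, x0 ∉ V := by
    by_contra h
    push Not at h
    have : V = Set.univ := by
      ext x
      exact ⟨fun _ => mem_univ _, fun _ => h x⟩
    rw [this, mk_univ] at q4
    exact lt_irrefl _ q4
  obtain ⟨W, SA, SB, sA, sB, d1, d2, d3, d4, _, d6, d7, d8, d9, d10⟩ :=
    explore (G := G) L x0 _ _ _ _ hst2.cA hst2.cB hst2.dmeq hst2.cov hst2.bA hst2.bB N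
  obtain ⟨g, hg, hgs⟩ := d8.nonempty d3
  obtain ⟨h, hh, hhs⟩ := d9.nonempty d4
  have hg' := q1 (d1 hg)
  have hh' := q2 (d2 hh)
  have hclsg : cls g = cls gA := he (hg'.2.trans hgA.2.symm)
  have hclsh : cls h = cls gB := he (hh'.2.trans hgB.2.symm)
  have hgF : FF g ∈ C (cls gA) := by
    rw [← hclsg]
    exact hFF g
  have hhF : FF h ∈ C (cls gB) := by
    rw [← hclsh]
    exact hFF h
  obtain ⟨hg1, hg2⟩ := hFF' g hg'.1
  obtain ⟨hh1, hh2⟩ := hFF' h hh'.1
  have hcg : (0 : ℝ) < (FF g).card := by exact_mod_cast Finset.card_pos.2 hg1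
  have hch' : (0 : ℝ) < (FF h).card := by exact_mod_cast Finset.card_pos.2 hh1
  have hwt : ∃ T : Finset G, T.Nonempty ∧ T.card ≤ N ∧ wt (FF g) (FF h) T ≤ 1 / 8 * T.card := by
    obtain ⟨T, k1, k2, k3⟩ := hN (FF g) hgF (FF h) hhF
    refine ⟨T, k1, k2, ?_⟩
    have k4 : ∑ e ∈ FF g, (bd e T : ℝ) ≤ (FF g).card * (1 / 16 * T.card) := by
      calc ∑ e ∈ FF g, (bd e T : ℝ) ≤ ∑ _e ∈ FF g, (1 / 16 * T.card : ℝ) :=
            Finset.sum_le_sum (fun e he => k3 e (Or.inl he))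
        _ = (FF g).card * (1 / 16 * T.card) := by rw [Finset.sum_const, nsmul_eq_mul]
    have k5 : ∑ e ∈ FF h, (bd e T : ℝ) ≤ (FF h).card * (1 / 16 * T.card) := by
      calc ∑ e ∈ FF h, (bd e T : ℝ) ≤ ∑ _e ∈ FF h, (1 / 16 * T.card : ℝ) :=
            Finset.sum_le_sum (fun e he => k3 e (Or.inr he))
        _ = (FF h).card * (1 / 16 * T.card) := by rw [Finset.sum_const, nsmul_eq_mul]
    have k6 : (∑ e ∈ FF g, (bd e T : ℝ)) / (FF g).card ≤ 1 / 16 * T.card := by
      rw [div_le_iff₀ hcg]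
      linarith
    have k7 : (∑ e ∈ FF h, (bd e T : ℝ)) / (FF h).card ≤ 1 / 16 * T.card := by
      rw [div_le_iff₀ hch']
      linarith
    unfold wt
    linarith
  obtain ⟨T, k1, k2, k3, k4⟩ := exists_conn (FF g) (FF h) N (1 / 8) hwt
  obtain ⟨a, haT⟩ := k1
  have hreach := subset_rch _ T a haT k4 N k2
  let y : X := a⁻¹ • x0
  have hay : a • y = x0 := smul_inv_smul _ _
  have hcov : ∀ t ∈ T, t • y ∈ ({x | g x = true} \ U : Set X) ∨
      t • y ∈ ({x | h x = true} \ U : Set X) := by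
    intro t ht
    have h1 : t • y ∈ pts (L g) (L h) x0 N := by
      apply smul_mem_pts {e : G | e ∈ FF g ∨ e ∈ FF h} _ _ _ a _ y hay N t (hreach t ht)
      rintro e' (he' | he')
      · left
        exact ⟨List.mem_append_left _ (Finset.mem_toList.2 he'),
          List.mem_append_right _ (List.mem_map.2 ⟨e', Finset.mem_toList.2 he', rfl⟩)⟩
      · right
        exact ⟨List.mem_append_left _ (Finset.mem_toList.2 he'),
          List.mem_append_right _ (List.mem_map.2 ⟨e', Finset.mem_toList.2 he', rfl⟩)⟩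
    have hnU : t • y ∉ U := q5 g (d1 hg) h (d2 hh) x0 hx0 _ h1
    have h2 := d10 g hg h hh
    rw [h2] at h1
    rcases d6 _ (d7 _ h1) with h3 | h3
    · exact Or.inl ⟨hgs _ _ h3, hnU⟩
    · exact Or.inr ⟨hhs _ _ h3, hnU⟩
  have h1 : (T.card : ℝ) ≤ cnt T (fun t => t • y ∈ ({x | g x = true} \ U : Set X)) +
      cnt T (fun t => t • y ∈ ({x | h x = true} \ U : Set X)) := by
    have h2 := cnt_or_le T (fun t => t • y ∈ ({x | g x = true} \ U : Set X))
      (fun t => t • y ∈ ({x | h x = true} \ U : Set X))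
    have h3 : cnt T (fun t => t • y ∈ ({x | g x = true} \ U : Set X) ∨
        t • y ∈ ({x | h x = true} \ U : Set X)) = T.card := by
      rw [← cnt_true T]
      exact cnt_congr T (fun t ht => ⟨fun _ => trivial, fun _ => hcov t ht⟩)
    rw [h3] at h2
    exact_mod_cast h2
  have h2 := density (FF g) T hg1 ({x | g x = true} \ U) y hg2
  have h3 := density (FF h) T hh1 ({x | h x = true} \ U) y hh2
  have h4 : (0 : ℝ) < T.card := by exact_mod_cast Finset.card_pos.2 ⟨a, haT⟩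
  unfold wt at k3
  linarith

end Pool.Agent.Helper26.UM
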