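import Pool.Agent.Helper26.UM.Stmts

set_option autoImplicit false

namespace Pool.Agent.Helper26.UM

open Cardinal Set Pool.Agent.Helper63.INV

universe u v w

theorem st_STEP : ST_STEP.{u} := by
  intro X _ SA SB tA tB h cA cB
  have hX : ℵ₀ ≤ #X := infinite_iff.1 inferInstance
  obtain ⟨a, rA, b1, b2, b3⟩ := h.bA.split h.cA (fun x : X => x) (fun _ _ h => h) cA
  have hdr : #(dm rA) < #X := card_dm_lt b2.2
  have c1 : Cd (fill tB (dm rA)) := cd_fill hX h.cB hdr
  have c2 : Big SB (fill tB (dm rA)) := h.bB.mono (subset_fill _ _)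
  obtain ⟨b, rB, d1, d2, d3⟩ := c2.split c1 (fun x : X => x) (fun _ _ h => h) cB
  have hdr' : #(dm rB) < #X := card_dm_lt d2.2
  have e1 : Cd (fill rA (dm rB)) := cd_fill hX b2 hdr'
  have hsubdm : dm rA ⊆ dm rB := by
    intro y hy
    have : y ∈ dm (fill tB (dm rA)) := by
      rw [dm_fill]
      exact Or.inr hy
    obtain ⟨v, hv⟩ := this
    exact ⟨v, d1 hv⟩
  have e2 : dm (fill rA (dm rB)) = dm rB := by
    rw [dm_fill]
    exact union_eq_self_of_subset_left hsubdm
  have e3 : ∀ y ∈ dm (fill rA (dm rB)), (y, true) ∈ fill rA (dm rB) ∨ (y, true) ∈ rB := by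
    intro y hy
    rw [e2] at hy
    by_cases h1 : y ∈ dm rA
    · by_cases h' : y ∈ dm tA
      · rcases h.cov y h' with h6 | h6
        · exact Or.inl (subset_fill _ _ (b1 h6))
        · exact Or.inr (d1 (subset_fill _ _ h6))
      · rw [h.dmeq] at h'
        exact Or.inr (d1 (mem_fill h1 h'))
    · exact Or.inl (mem_fill hy h1)
  exact ⟨a, b, fill rA (dm rB), rB, ⟨e1, d2, e2, e3, b3.mono (subset_fill _ _), d3⟩⟩

end Pool.Agent.Helper26.UM
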