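import Pool.Agent.Helper63.INV.Main

/-!
# Project UM: the number of invariant means

Statements of the rows. `Pool.Agent.Helper63.INV` is the library of helper63.
-/

set_option autoImplicit false

namespace Pool.Agent.Helper26.UM

open Cardinal Set Pool.Agent.Helper63.INV

universe u v w

/-- invariant means -/
def IsIM (G : Type v) [Group G] {X : Type u} [MulAction G X] (M : Set X → ℝ) : Prop :=
  (∀ A : Set X, 0 ≤ M A ∧ M A ≤ 1) ∧ M Set.univ = 1 ∧
    (∀ A B : Set X, Disjoint A B → M (A ∪ B) = M A + M B) ∧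
    (∀ (g : G) (A : Set X), M ((fun x : X => g • x) ⁻¹' A) = M A)

/-- `#X` disjoint sets, every one of measure at least `1/12` for some invariant mean -/
def Many (G : Type v) [Group G] (X : Type u) [MulAction G X] : Prop :=
  ∃ (A : X → Set X) (m : X → Set X → ℝ), (∀ x y, x ≠ y → Disjoint (A x) (A y)) ∧
    (∀ x, IsIM G (m x)) ∧ ∀ x, 1 / 12 ≤ m x (A x)

/-- state of the exploration -/
structure St {X : Type u} (SA SB : Set (X → Bool)) (tA tB : Set (X × Bool)) : Prop where
  cA : Cd tA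
  cB : Cd tB
  dmeq : dm tA = dm tB
  cov : ∀ y ∈ dm tA, (y, true) ∈ tA ∨ (y, true) ∈ tB
  bA : Big SA tA
  bB : Big SB tB

/-- ROS: the disjointness lemma of Rosenthal, for `#X` measures. Sheet: for an injective `f` let
`a f x = m (f x) (⋃ y, A (f y))`. Claim by induction on `n`: there is an injective `f` with
`a f x ≤ 1 - n ε` for all `x` (absurd for large `n`). Step: `q : X × X ≃ X`; for every `p` apply
the failure of the statement to `y ↦ f (q (p, y))`: there is `y_p` with
`m (f (q (p, y_p))) (⋃ y ≠ y_p, A (f (q (p, y)))) > ε`; put `f' p = f (q (p, y_p))`; the unions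
`⋃ p', A (f' p')` and `⋃ y ≠ y_p, A (f (q (p, y)))` are disjoint parts of `⋃ z, A (f z)`. -/
def ST_ROS : Prop := ∀ (X : Type u) [Infinite X] (A : X → Set X) (m : X → Set X → ℝ) (ε : ℝ),
  0 < ε → (∀ x y, x ≠ y → Disjoint (A x) (A y)) → (∀ x B, 0 ≤ m x B ∧ m x B ≤ 1) →
  (∀ x B C, Disjoint B C → m x (B ∪ C) = m x B + m x C) →
  ∃ f : X → X, Function.Injective f ∧ ∀ x, m (f x) (⋃ y ∈ {y : X | y ≠ x}, A (f y)) ≤ ε

/-- UCARD (Pospisil): index set `Finset X × Finset (Finset X)` (same cardinality as `X`); for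
`A : Set X` the set `I_A = {(F, S) | F.filter (· ∈ A) ∈ S}`; for distinct `A_1, .., A_n` every
choice of `I_(A_i)` or complement meets; so `2 ^ #(Set X)` ultrafilters. -/
def ST_UCARD : Prop := ∀ (X : Type u) [Infinite X],
  (2 : Cardinal.{u}) ^ ((2 : Cardinal.{u}) ^ #X) ≤ #(Ultrafilter X)

/-- ULIM: `F U A = lim_U m x A` (see `limit_mean` in Helper63/INV/Fol.lean for the limit);
`U ≠ V`: `I ∈ U`, `Iᶜ ∈ V`; on `⋃ x ∈ I, A x` the limit along `U` is at least `c`, along `V` at
most `c / 2`. -/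
def ST_ULIM : Prop := ∀ (G : Type v) [Group G] (X : Type u) [MulAction G X] (A : X → Set X)
  (m : X → Set X → ℝ) (c : ℝ), 0 < c → (∀ x, IsIM G (m x)) → (∀ x, c ≤ m x (A x)) →
  (∀ x, m x (⋃ y ∈ {y : X | y ≠ x}, A y) ≤ c / 2) →
  ∃ F : Ultrafilter X → (Set X → ℝ), Function.Injective F ∧ ∀ U, IsIM G (F U)

/-- UU: a maximal family (Zorn) of pairwise disjoint sets `Z` with `#Z < #X` and `1/12 ≤ M Z` for
some invariant mean `M` has fewer than `#X` members (else `Many`: an injection of `X` into the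
family); `U` is its union (`Cardinal.card_biUnion_lt_iff_forall_of_isRegular`); `Z = ∅` has
measure `0`. -/
def ST_UU : Prop := ∀ (G : Type v) [Group G] (X : Type u) [MulAction G X], (#X).IsRegular →
  ¬ Many G X → ∃ U : Set X, #U < #X ∧
    ∀ Z : Set X, #Z < #X → Disjoint Z U → ∀ M : Set X → ℝ, IsIM G M → M Z < 1 / 12

/-- SB: as `small_big` in Helper63/INV/Exp.lean with `X → X` instead of `X → Fin 3`: a generic
`g : X → X` (`baire` for the family indexed by `X × X ≃ X`) gives `#X` disjoint sets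
`{x ∉ dm t | g x = j} \ U`; if `Φ j g` is not good, this set has measure more than
`1/3 - 1/12 ≥ 1/12` for some mean. -/
def ST_SB : Prop := ∀ (G : Type v) [Group G] (X : Type u) [MulAction G X], (#X).IsRegular →
  ¬ Many G X → ∀ U : Set X,
    (∀ Z : Set X, #Z < #X → Disjoint Z U → ∀ M : Set X → ℝ, IsIM G M → M Z < 1 / 12) →
    ∀ s : Set (X × Bool),
      Big {g : X → Bool | ∀ M : Set X → ℝ, IsIM G M → M ({x | g x = true} \ U) ≤ 1 / 3} s

/-- STEP: one round of splitting (see the successor step of `explore`). -/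
def ST_STEP : Prop := ∀ (X : Type u) [Infinite X] (SA SB : Set (X → Bool))
  (tA tB : Set (X × Bool)), St SA SB tA tB → ∀ cA cB : (X → Bool) → X,
    ∃ (a b : X) (uA uB : Set (X × Bool)),
      St {g | g ∈ SA ∧ cA g = a} {g | g ∈ SB ∧ cB g = b} uA uB

/-- BETA: shrink both families so that all points outside a small `V` have their `n`-ball outside
`U`. Induction on `n` for all `U`: `STEP` with a bound (well-order of type `(#X).ord`, regular)
of the small set of points that `L g` moves into `U`. -/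
def ST_BETA : Prop := ∀ (G : Type v) [Group G] (X : Type u) [MulAction G X], (#X).IsRegular →
  ∀ (L : (X → Bool) → List G) (n : ℕ) (U : Set X), #U < #X →
  ∀ (SA SB : Set (X → Bool)) (tA tB : Set (X × Bool)), St SA SB tA tB →
    ∃ (SA' SB' : Set (X → Bool)) (tA' tB' : Set (X × Bool)) (V : Set X),
      SA' ⊆ SA ∧ SB' ⊆ SB ∧ St SA' SB' tA' tB' ∧ #V < #X ∧
      ∀ g ∈ SA', ∀ h ∈ SB', ∀ x, x ∉ V → ∀ y ∈ pts (L g) (L h) x n, y ∉ U

/-- MAIN: as `main` in Helper63/INV/Main.lean. -/
def ST_MAIN : Prop := ∀ (G : Type v) [Group G] (X : Type u) [MulAction G X], (#X).IsRegular →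
  ∀ (I : Type w) (e : I → X), Function.Injective e → ∀ C : I → Set (Finset G),
    (∀ E : Finset G, ∃ a, E ∈ C a) →
    (∀ (a b : I) (δ : ℝ), 0 < δ → ∃ N : ℕ, ∀ E ∈ C a, ∀ F ∈ C b, ∃ T : Finset G,
      T.Nonempty ∧ T.card ≤ N ∧ ∀ g : G, (g ∈ E ∨ g ∈ F) → (bd g T : ℝ) ≤ δ * T.card) →
    Many G X

/-- UPPER: the number of all real functions on `Set X`. -/
def ST_UPPER : Prop := ∀ (X : Type u) [Infinite X],
  #(Set X → ℝ) ≤ (2 : Cardinal.{u}) ^ ((2 : Cardinal.{u}) ^ #X)

end Pool.Agent.Helper26.UM
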